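import Pool.Agent.H242R3.ES.StmtsG

/-!
# Project H242-ES, TRANS: the translation for the general case
-/

set_option autoImplicit false

open scoped Classical

namespace Pool.Agent.H454R3.ES

open Pool.Agent.H242R3.ES

theorem B_smul_smul {D : ℕ} (a b : ℝ) (x y : LV D) : B (a • x) (b • y) = a * b * B x y := by
  unfold B
  simp only [Pi.smul_apply, smul_eq_mul]
  rw [mul_sub, Finset.mul_sum]
  congr 1
  · apply Finset.sum_congr rfl
    intro i _
    ring
  · ring

theorem face_smul {ι E : Type} [AddCommGroup E] [Module ℝ E] (U : ι → E) (c : ι → ℝ)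
    (hc : ∀ i, 0 < c i) (S : Set ι) : Face (fun i => c i • U i) S ↔ Face U S := by
  unfold Face
  constructor
  · rintro ⟨l, h1, h2⟩
    refine ⟨l, fun i => ?_, fun i => ?_⟩
    · have := h1 i
      rw [map_smul, smul_eq_mul] at this
      exact (mul_nonneg_iff_of_pos_left (hc i)).1 this
    · rw [h2 i, map_smul, smul_eq_mul, mul_eq_zero]
      exact ⟨fun h => h.resolve_left (hc i).ne', Or.inr⟩
  · rintro ⟨l, h1, h2⟩
    refine ⟨l, fun i => ?_, fun i => ?_⟩
    · rw [map_smul, smul_eq_mul]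
      exact mul_nonneg (hc i).le (h1 i)
    · rw [h2 i, map_smul, smul_eq_mul, mul_eq_zero]
      exact ⟨Or.inr, fun h => h.resolve_left (hc i).ne'⟩

theorem face_comp {ι κ E : Type} [AddCommGroup E] [Module ℝ E] (U : κ → E) (e : ι ≃ κ)
    (S : Set ι) : Face (fun i => U (e i)) S ↔ Face U (e '' S) := by
  unfold Face
  constructor
  · rintro ⟨l, h1, h2⟩
    refine ⟨l, fun k => ?_, fun k => ?_⟩
    · have := h1 (e.symm k)
      beta_reduce at this
      rwa [Equiv.apply_symm_apply] at this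
    · have := h2 (e.symm k)
      beta_reduce at this
      rw [Equiv.apply_symm_apply] at this
      rw [← this]
      constructor
      · rintro ⟨i, hi, rfl⟩
        rwa [Equiv.symm_apply_apply]
      · intro h
        exact ⟨_, h, e.apply_symm_apply k⟩
  · rintro ⟨l, h1, h2⟩
    refine ⟨l, fun i => h1 (e i), fun i => ?_⟩
    rw [← h2 (e i)]
    constructor
    · intro h
      exact ⟨i, h, rfl⟩
    · rintro ⟨j, hj, hij⟩
      rwa [← e.injective hij]

theorem span_smul_top {ι E : Type} [AddCommGroup E] [Module ℝ E] (U : ι → E) (c : ι → ℝ)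
    (hc : ∀ i, 0 < c i) (h : Submodule.span ℝ (Set.range U) = ⊤) :
    Submodule.span ℝ (Set.range fun i => c i • U i) = ⊤ := by
  rw [eq_top_iff, ← h, Submodule.span_le]
  rintro _ ⟨i, rfl⟩
  have h1 : U i = (c i)⁻¹ • (c i • U i) := by
    rw [smul_smul, inv_mul_cancel₀ (hc i).ne', one_smul]
  rw [h1]
  exact Submodule.smul_mem _ _ (Submodule.subset_span ⟨i, rfl⟩)

/-- the Lorentz norm of the homogeneous coordinates -/
noncomputable def nrm {D : ℕ} (x : Fin D → ℝ) : ℝ := Real.sqrt (∑ i, x i ^ 2 - 1)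

theorem nrm_pos {D : ℕ} {x : Fin D → ℝ} (h : 1 < ∑ i, x i ^ 2) : 0 < nrm x :=
  Real.sqrt_pos.2 (by linarith)

theorem B_hom {D : ℕ} (x : Fin D → ℝ) : B (hom x) (hom x) = ∑ i, x i ^ 2 - 1 := by
  unfold B hom
  simp only [Option.elim, mul_one]
  congr 1
  apply Finset.sum_congr rfl
  intro i _
  ring

/-- the time-like vector -/
noncomputable def tv (D : ℕ) : LV D := fun i => Option.elim i (1 : ℝ) (fun _ => 0)

theorem B_tv {D : ℕ} (x : LV D) : B x (tv D) = -x none := by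
  unfold B tv
  simp

section

variable {D : ℕ} {V : Finset (Fin D → ℝ)} {ι : Type}

/-- the normalised vectors -/
noncomputable def nv (e : ι ≃ EP V) (i : ι) : LV D :=
  (nrm ((e i : EP V) : Fin D → ℝ))⁻¹ • hom ((e i : EP V) : Fin D → ℝ)

theorem face_nv (h1 : ∀ a ∈ EP V, 1 < ∑ i, a i ^ 2) (e : ι ≃ EP V) (S : Set ι) :
    Face (nv e) S ↔ Face (fun i : EP V => hom (i : Fin D → ℝ)) (e '' S) := by
  have h2 := face_smul (fun i : ι => hom ((e i : EP V) : Fin D → ℝ))
    (fun i => (nrm ((e i : EP V) : Fin D → ℝ))⁻¹)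
    (fun i => inv_pos.2 (nrm_pos (h1 _ (e i).2))) S
  have h3 := face_comp (fun i : EP V => hom (i : Fin D → ℝ)) e S
  exact h2.trans h3

theorem nv_none (h1 : ∀ a ∈ EP V, 1 < ∑ i, a i ^ 2) (e : ι ≃ EP V) (i : ι) :
    0 < nv e i none := by
  unfold nv hom
  simp only [Pi.smul_apply, Option.elim, smul_eq_mul, mul_one]
  exact inv_pos.2 (nrm_pos (h1 _ (e i).2))

theorem face_empty (h1 : ∀ a ∈ EP V, 1 < ∑ i, a i ^ 2) (e : ι ≃ EP V) : Face (nv e) ∅ := by
  refine ⟨LinearMap.proj none, fun i => ?_, fun i => ?_⟩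
  · exact (nv_none h1 e i).le
  · simp only [Set.mem_empty_iff_false, false_iff]
    exact (nv_none h1 e i).ne'

theorem gq [Fintype ι] (hD : 2 ≤ D)
    (hint : (interior (convexHull ℝ (V : Set (Fin D → ℝ)))).Nonempty) (hT : Tang V)
    (hTR1 : TR1) (hTR2 : TR2) (e : ι ≃ EP V) : GQ D (nv e) := by
  obtain ⟨-, hv, hs⟩ := hTR1 D hD V hint
  obtain ⟨h1, h2⟩ := hTR2 D hD V hint hT
  refine ⟨fun i => ?_, ⟨tv D, ?_, fun i => ?_⟩, fun i => ?_, fun i j hij hf => ?_, ?_⟩
  · unfold nv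
    rw [B_smul_smul, B_hom]
    have h3 : nrm ((e i : EP V) : Fin D → ℝ) * nrm ((e i : EP V) : Fin D → ℝ) =
        ∑ k, ((e i : EP V) : Fin D → ℝ) k ^ 2 - 1 :=
      Real.mul_self_sqrt (by have := h1 _ (e i).2; linarith)
    have h4 := (nrm_pos (h1 _ (e i).2)).ne'
    rw [← h3]
    field_simp
  · rw [B_tv]
    simp [tv]
  · rw [B_tv]
    have := nv_none h1 e i
    linarith
  · rw [face_nv h1, Set.image_singleton]
    exact hv (e i)
  · rw [face_nv h1, Set.image_pair] at hf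
    have h3 := h2 (e i) (e j) (fun h => hij (e.injective h)) hf
    unfold nv
    rw [B_smul_smul, h3]
    have h4 := (nrm_pos (h1 _ (e i).2)).ne'
    have h5 := (nrm_pos (h1 _ (e j).2)).ne'
    show (nrm ((e i : EP V) : Fin D → ℝ))⁻¹ * (nrm ((e j : EP V) : Fin D → ℝ))⁻¹ *
      -(nrm ((e i : EP V) : Fin D → ℝ) * nrm ((e j : EP V) : Fin D → ℝ)) = -1
    field_simp
  · apply span_smul_top (fun i : ι => hom ((e i : EP V) : Fin D → ℝ))
      (fun i => (nrm ((e i : EP V) : Fin D → ℝ))⁻¹)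
      (fun i => inv_pos.2 (nrm_pos (h1 _ (e i).2)))
    rw [← hs]
    congr 1
    ext x
    constructor
    · rintro ⟨i, rfl⟩
      exact ⟨e i, rfl⟩
    · rintro ⟨i, rfl⟩
      exact ⟨e.symm i, by simp⟩

end

theorem t : TaskTrans := by
  intro hF1 hF3 hTR1 hTR2 hMain d hd V W hV hW hTV hTW hf
  obtain ⟨f, hbij, hf⟩ := hf
  have hfin : Finite (EP V) := (hTR1 (d + 1) (by omega) V hV).1
  have : Fintype (EP V) := Fintype.ofFinite _
  obtain ⟨v1, -⟩ := hTR2 (d + 1) (by omega) V hV hTV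
  obtain ⟨w1, -⟩ := hTR2 (d + 1) (by omega) W hW hTW
  let e : EP V ≃ EP W := hbij.equiv f
  have he : ∀ i : EP V, ((e i : EP W) : Fin (d + 1) → ℝ) = f i := fun i => rfl
  have hfaces : ∀ S, Face (nv (Equiv.refl (EP V))) S ↔ Face (nv e) S := by
    intro S
    rcases S.eq_empty_or_nonempty with rfl | hS
    · exact ⟨fun _ => face_empty w1 e, fun _ => face_empty v1 _⟩
    · rw [face_nv v1, face_nv w1]
      have hT : (Subtype.val '' S : Set (Fin (d + 1) → ℝ)) ⊆ EP V := by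
        rintro _ ⟨i, -, rfl⟩
        exact i.2
      have hTn : (Subtype.val '' S : Set (Fin (d + 1) → ℝ)).Nonempty := hS.image _
      have h1 := hF1 (d + 1) V _ hT hTn
      have hfT : f '' (Subtype.val '' S) ⊆ EP W := by
        rintro _ ⟨_, ⟨i, -, rfl⟩, rfl⟩
        exact hbij.mapsTo i.2
      have h2 := hF1 (d + 1) W _ hfT (hTn.image f)
      have h3 := hf _ hT
      have e1 : (Equiv.refl (EP V)) '' S = {i : EP V | (i : Fin (d + 1) → ℝ) ∈ Subtype.val '' S} := by
        ext i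
        constructor
        · rintro ⟨j, hj, rfl⟩
          exact ⟨j, hj, rfl⟩
        · rintro ⟨j, hj, hij⟩
          exact ⟨j, hj, Subtype.ext hij⟩
      have e2 : e '' S = {i : EP W | (i : Fin (d + 1) → ℝ) ∈ f '' (Subtype.val '' S)} := by
        ext i
        constructor
        · rintro ⟨j, hj, rfl⟩
          exact ⟨j, ⟨j, hj, rfl⟩, rfl⟩
        · rintro ⟨_, ⟨j, hj, rfl⟩, hij⟩
          exact ⟨j, hj, Subtype.ext hij⟩
      rw [e1, e2, ← h1, ← h2]
      exact h3
  obtain ⟨T, hT1, hT2⟩ := hMain (d + 1) (by omega) (EP V) (nv (Equiv.refl (EP V))) (nv e)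
    (gq (by omega) hV hTV hTR1 hTR2 _) (gq (by omega) hW hTW hTR1 hTR2 _) hfaces
  have hVne : V.Nonempty := by
    rw [Finset.nonempty_iff_ne_empty]
    rintro rfl
    simp at hV
  refine hF3 (d + 1) V W f hVne hbij T hT1 fun a ha => ?_
  have h1 := hT2 ⟨a, ha⟩
  have hva := nrm_pos (v1 a ha)
  have hwa := nrm_pos (w1 (f a) (hbij.mapsTo ha))
  refine ⟨nrm a * (nrm (f a))⁻¹, mul_pos hva (inv_pos.2 hwa), ?_⟩
  have h2 : T ((nrm a)⁻¹ • hom a) = (nrm (f a))⁻¹ • hom (f a) := h1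
  rw [map_smul] at h2
  have h3 : T (hom a) = nrm a • ((nrm a)⁻¹ • T (hom a)) := by
    rw [smul_smul, mul_inv_cancel₀ hva.ne', one_smul]
  rw [h3, h2, smul_smul]

end Pool.Agent.H454R3.ES
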